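import Pool.Agent.W314.BA.Lat

set_option autoImplicit false

open MeasureTheory Set Filter Topology Real
open scoped ENNReal NNReal

namespace Pool.Agent.W654.BA.LB

open Pool.Agent.W314.BA

theorem main (h1 : LatCountStmt) (h2 : LatAStmt) : LatBStmt := by
  intro Γ σ F h
  obtain ⟨-, hred, -⟩ := h2 Γ σ F h
  obtain ⟨R, hR⟩ := h.F_bdd
  have hfin := h1 Γ σ F h (4 * max R 1)
  set S := hfin.toFinset with hS
  have hFR : F ⊆ Bx (max R 1) := hR.trans (Bx_mono (le_max_left _ _))
  have hFtop : hm F ≠ ⊤ := by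
    refine ne_top_of_le_ne_top ?_ (measure_mono hFR)
    rw [hm_Bx (le_max_right _ _)]
    exact ENNReal.ofReal_ne_top
  refine ⟨(S.card : ℝ≥0∞) * hm F, ENNReal.mul_ne_top (ENNReal.natCast_ne_top _) hFtop,
    fun y => ?_⟩
  have hmy : Measurable (fun g : G => redL h (g * (y : G))) :=
    hred.comp (measurable_mul_const (y : G))
  rw [Measure.le_iff]
  intro A hA
  have hemb : MeasurableEmbedding ((↑) : F → G) := MeasurableEmbedding.subtype_coe h.F_meas
  have hA0 : MeasurableSet (((↑) : F → G) '' A) := hemb.measurableSet_image.2 hA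
  rw [Measure.map_apply hmy hA, Measure.restrict_apply (hmy hA)]
  have hsub : ((fun g : G => redL h (g * (y : G))) ⁻¹' A) ∩ Bx 2 ⊆
      ⋃ γ ∈ S, (fun g : G => g * ((y : G) * γ)) ⁻¹' (((↑) : F → G) '' A) := by
    rintro g ⟨hg1, hg2⟩
    rw [mem_iUnion₂]
    refine ⟨(gamL h (g * (y : G)) : G), ?_, ?_⟩
    · rw [hS, Set.Finite.mem_toFinset]
      refine ⟨(gamL h (g * (y : G))).2, g * (y : G), ?_, gamL_mem h _⟩
      show hh (g * (y : G)) ≤ 4 * max R 1
      have e1 := hh_mul_le g (y : G)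
      have e2 : hh g ≤ 2 := hg2
      have e3 : hh (y : G) ≤ max R 1 := hFR y.2
      have e4 := one_le_hh g
      have e5 := one_le_hh (y : G)
      nlinarith
    · refine ⟨redL h (g * (y : G)), hg1, ?_⟩
      rw [redL_coe_eq]
      simp only [mul_assoc]
  have hA0F : hm (((↑) : F → G) '' A) ≤ hm F := measure_mono (by
    rintro _ ⟨a, _, rfl⟩
    exact a.2)
  have key : hm (((fun g : G => redL h (g * (y : G))) ⁻¹' A) ∩ Bx 2) ≤
      (S.card : ℝ≥0∞) * hm (((↑) : F → G) '' A) := by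
    refine (measure_mono hsub).trans ((measure_biUnion_finset_le _ _).trans ?_)
    have : ∀ γ ∈ S, hm ((fun g : G => g * ((y : G) * γ)) ⁻¹' (((↑) : F → G) '' A)) =
        hm (((↑) : F → G) '' A) := fun γ _ =>
      (hm_mul_right ((y : G) * γ)).measure_preimage hA0.nullMeasurableSet
    rw [Finset.sum_congr rfl this, Finset.sum_const, nsmul_eq_mul]
  refine key.trans ?_
  rw [Measure.smul_apply]
  unfold muL
  rw [Measure.smul_apply, hemb.comap_apply, smul_eq_mul, smul_eq_mul, mul_assoc]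
  refine mul_le_mul_right ?_ _
  by_cases h0 : hm F = 0
  · rw [h0] at hA0F
    rw [nonpos_iff_eq_zero.mp hA0F]
    exact zero_le
  · rw [← mul_assoc, ENNReal.mul_inv_cancel h0 hFtop, one_mul]

end Pool.Agent.W654.BA.LB
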