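import Pool.Agent.W314.BA.Stm

set_option autoImplicit false

open MeasureTheory Set Filter Topology Real
open scoped ENNReal NNReal

namespace Pool.Agent.W654.BA

open Pool.Agent.W314.BA

theorem main (h : DomRStmt) : SupStmt := by
  intro Y _ _ μ c hS
  obtain ⟨C0, hC0, hdom⟩ := h
  obtain ⟨C1, hC1, hdens⟩ := hS.dens
  obtain ⟨J, hJ⟩ := hS.bdd 2
  refine ⟨C0 * C1, J.toNat, ENNReal.mul_ne_top hC0 hC1, fun x hx n => ?_⟩
  unfold Sn
  refine iSup_le fun y => ?_
  have hcm : ∀ (y : Y) (n : ℤ), MeasurableSet {g : G | c g y = n} := fun y n => by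
    have : Measurable (fun g : G => c g y) := hS.c_meas.comp (measurable_id.prodMk measurable_const)
    exact this (measurableSet_singleton n)
  have hkm : ∀ m : ℤ, Measurable (fun y' : Y => bm (4 * x) {g | c g y' = m}) := fun m => by
    have hs : MeasurableSet {p : G × Y | c p.1 p.2 = m} := hS.c_meas (measurableSet_singleton m)
    exact measurable_measure_prodMk_right hs
  set φ : G → ℝ≥0∞ := indicator {g | c g y = n} (fun _ => 1) with hφ
  have hφm : Measurable φ := measurable_const.indicator (hcm y n)
  have e1 : bm x {g | c g y = n} = ∫⁻ g, φ g ∂(bm x) := by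
    rw [hφ, lintegral_indicator (hcm y n)]
    simp
  rw [e1]
  refine (hdom x hx φ hφm).trans ?_
  rw [mul_assoc]
  refine mul_le_mul_right ?_ C0
  rw [lintegral_lintegral_swap]
  swap
  · exact (hφm.comp (measurable_fst.mul measurable_snd)).aemeasurable
  have e2 : (bm 2) = hm.restrict (Bx 2) := by
    unfold bm
    norm_num
  rw [e2]
  calc ∫⁻ u in Bx 2, ∫⁻ g, φ (g * u) ∂(bm (4 * x)) ∂hm
      ≤ ∫⁻ u in Bx 2, ∑ j ∈ Finset.Icc (-((J.toNat : ℕ) : ℤ)) (J.toNat : ℕ),
          bm (4 * x) {g | c g (u • y) = n - j} ∂hm := by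
        refine setLIntegral_mono' (Bx_meas 2) fun u hu => ?_
        have e3 : ∫⁻ g, φ (g * u) ∂(bm (4 * x)) =
            bm (4 * x) {g | c g (u • y) = n - c u y} := by
          have : (fun g => φ (g * u)) = indicator {g | c g (u • y) = n - c u y} (fun _ => 1) := by
            funext g
            rw [hφ]
            simp only [indicator, mem_setOf_eq, hS.coc]
            congr 1
            apply propext
            constructor <;> intro h <;> omega
          rw [this, lintegral_indicator (hcm _ _)]
          simp
        rw [e3]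
        have hcu : c u y ∈ Finset.Icc (-((J.toNat : ℕ) : ℤ)) (J.toNat : ℕ) := by
          have := abs_le.mp (hJ u hu y)
          rw [Finset.mem_Icc]
          have h2 := Int.self_le_toNat J
          constructor <;> omega
        exact Finset.single_le_sum (f := fun j => bm (4 * x) {g | c g (u • y) = n - j})
          (fun _ _ => zero_le) hcu
    _ = ∑ j ∈ Finset.Icc (-((J.toNat : ℕ) : ℤ)) (J.toNat : ℕ),
          ∫⁻ u in Bx 2, bm (4 * x) {g | c g (u • y) = n - j} ∂hm := by
        rw [lintegral_finsetSum]
        intro j _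
        have : Measurable (fun u : G => u • y) :=
          hS.smul_meas.comp (measurable_id.prodMk measurable_const)
        exact (hkm (n - j)).comp this
    _ ≤ ∑ j ∈ Finset.Icc (-((J.toNat : ℕ) : ℤ)) (J.toNat : ℕ), C1 * Kn μ c (4 * x) (n - j) := by
        refine Finset.sum_le_sum fun j _ => ?_
        have hsm : Measurable (fun u : G => u • y) :=
          hS.smul_meas.comp (measurable_id.prodMk measurable_const)
        rw [← lintegral_map (hkm (n - j)) hsm]
        refine (lintegral_mono' (hdens y) le_rfl).trans ?_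
        rw [lintegral_smul_measure]
        rfl
    _ = C1 * ∑ j ∈ Finset.Icc (-((J.toNat : ℕ) : ℤ)) (J.toNat : ℕ), Kn μ c (4 * x) (n - j) := by
        rw [Finset.mul_sum]

end Pool.Agent.W654.BA
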